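import Pool.Agent.H43.G.R_seed8.H300R2.EC.Defs
import Pool.Agent.H43.G.R_seed8.H442R2.EHI.Fourier
import Pool.Agent.H43.G.R_seed8.Helper919.Char

/-!
X5 of the EC project (helper300): Siegel-Walfisz for the sums of `(D/p)/p` over dyadic intervals.
-/

namespace Pool.Agent.H364R2.EC

open Finset
open Pool.Agent.H300R2.EC
open Pool.Agent.Helper919 (XX)

/-- the sum of `(D/p)` over the odd primes `p ≤ y` -/
noncomputable def T (D : ℤ) (y : ℕ) : ℝ := ∑ p ∈ (Icc 1 y).filter (fun p : ℕ => p.Prime), XX D p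

theorem T_eq (D : ℤ) (hD : D ≠ 0) (y : ℕ) :
    T D y = ∑ c ∈ range (4 * D.natAbs), XX D c * H343E.piAP y (4 * D.natAbs) c := by
  set q := 4 * D.natAbs with hq
  have hq0 : 0 < q := by have := Int.natAbs_pos.2 hD; omega
  unfold T
  rw [← sum_fiberwise_of_maps_to (s := (Icc 1 y).filter (fun p : ℕ => p.Prime)) (t := range q)
      (g := fun p => p % q) (fun p _ => mem_range.2 (Nat.mod_lt _ hq0))]
  apply sum_congr rfl
  intro c hc
  rw [mem_range] at hc
  have h2 : ((Icc 1 y).filter (fun p : ℕ => p.Prime)).filter (fun p => p % q = c) =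
      (Icc 1 y).filter (fun p : ℕ => p.Prime ∧ p ≡ c [MOD q]) := by
    rw [filter_filter]
    apply filter_congr
    intro p _
    unfold Nat.ModEq
    rw [Nat.mod_eq_of_lt hc]
  rw [h2]
  have h3 : ∀ p ∈ (Icc 1 y).filter (fun p : ℕ => p.Prime ∧ p ≡ c [MOD q]), XX D p = XX D c := by
    intro p hp
    rw [mem_filter] at hp
    have h4 : p % q = c := by
      have := hp.2.2
      unfold Nat.ModEq at this
      rwa [Nat.mod_eq_of_lt hc] at this
    rw [← Pool.Agent.Helper919.XX_mod D p, ← hq, h4]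
  rw [sum_congr rfl h3, sum_const, nsmul_eq_mul]
  unfold H343E.piAP
  rw [mul_comm]

theorem T_bound (D : ℤ) (hD : ¬ IsSquare D) (y U : ℕ)
    (h : ∀ c : ℕ, c < 4 * D.natAbs → c.Coprime (4 * D.natAbs) →
      |H343E.piAP y (4 * D.natAbs) c - H343E.pi1 y / (Nat.totient (4 * D.natAbs) : ℝ)| ≤
        y / Real.log y ^ U) (hL : 0 ≤ (y : ℝ) / Real.log y ^ U) :
    |T D y| ≤ (4 * D.natAbs : ℕ) * (y / Real.log y ^ U) := by
  have hD0 : D ≠ 0 := by rintro rfl; exact hD ⟨0, rfl⟩
  have h1 : T D y = ∑ c ∈ range (4 * D.natAbs), XX D c *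
      (H343E.piAP y (4 * D.natAbs) c - H343E.pi1 y / (Nat.totient (4 * D.natAbs) : ℝ)) := by
    have h2 := Pool.Agent.Helper919.XX_sum_period D hD0 hD
    simp_rw [mul_sub]
    rw [sum_sub_distrib, ← sum_mul, h2, zero_mul, sub_zero, T_eq D hD0]
  rw [h1]
  refine (abs_sum_le_sum_abs _ _).trans ?_
  calc ∑ c ∈ range (4 * D.natAbs), |XX D c *
      (H343E.piAP y (4 * D.natAbs) c - H343E.pi1 y / (Nat.totient (4 * D.natAbs) : ℝ))|
      ≤ ∑ c ∈ range (4 * D.natAbs), (y : ℝ) / Real.log y ^ U := by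
        apply sum_le_sum
        intro c hc
        by_cases hcop : c.Coprime (4 * D.natAbs)
        · rw [abs_mul]
          calc |XX D c| * |H343E.piAP y (4 * D.natAbs) c -
              H343E.pi1 y / (Nat.totient (4 * D.natAbs) : ℝ)| ≤ 1 * (y / Real.log y ^ U) :=
                mul_le_mul (Pool.Agent.Helper919.XX_abs_le D c) (h c (mem_range.1 hc) hcop)
                  (abs_nonneg _) zero_le_one
            _ = _ := one_mul _
        · rw [Pool.Agent.Helper919.XX_zero_of_not_coprime D c hcop, zero_mul, abs_zero]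
          exact hL
    _ = _ := by rw [sum_const, card_range, nsmul_eq_mul]

theorem T_succ (D : ℤ) (n : ℕ) :
    T D (n + 1) = T D n + if (n + 1).Prime then XX D (n + 1) else 0 := by
  unfold T
  have h1 : Icc 1 (n + 1) = insert (n + 1) (Icc 1 n) := by
    ext k
    simp only [mem_insert, mem_Icc]
    omega
  rw [h1, filter_insert]
  split_ifs with h
  · rw [sum_insert (by simp), add_comm]
  · rw [add_zero]

theorem Sd_eq (D : ℤ) (P Q : ℕ) (hPQ : P ≤ Q) :
    Sd D P Q = T D Q / (Q + 1) - T D P / (P + 1) +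
      ∑ n ∈ Ioc P Q, T D n * (1 / (n : ℝ) - 1 / (n + 1)) := by
  induction Q, hPQ using Nat.le_induction with
  | base => unfold Sd; simp
  | succ Q hQ ih =>
    have h1 : Ioc P (Q + 1) = insert (Q + 1) (Ioc P Q) := by
      ext k
      simp only [mem_insert, mem_Ioc]
      omega
    have h2 : Sd D P (Q + 1) = Sd D P Q + (if (Q + 1).Prime then XX D (Q + 1) else 0) / (Q + 1) := by
      unfold Sd
      rw [h1, filter_insert]
      by_cases hp : (Q + 1).Prime
      · rw [if_pos hp]
        by_cases h2 : Q + 1 = 2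
        · rw [if_neg (by tauto)]
          have : XX D (Q + 1) = 0 := by
            rw [Pool.Agent.Helper919.XX_apply, if_neg]
            rw [h2]; decide
          rw [this]; simp
        · rw [if_pos ⟨hp, h2⟩, sum_insert (by simp)]
          have ho : Odd (Q + 1) := hp.odd_of_ne_two h2
          rw [Pool.Agent.Helper919.XX_apply, if_pos ho, add_comm]
          push_cast
          rfl
      · rw [if_neg hp, if_neg (by tauto)]; simp
    rw [h2, ih, h1, sum_insert (by simp), T_succ]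
    push_cast
    have a1 : (Q : ℝ) + 1 ≠ 0 := by positivity
    have a2 : (Q : ℝ) + 1 + 1 ≠ 0 := by positivity
    field_simp
    ring

/-- X5 -/
theorem sw_tail (V W : ℕ) : ∃ P0 : ℕ, ∀ P : ℕ, P0 ≤ P → ∀ Q : ℕ, P ≤ Q → Q ≤ 2 * P → ∀ D : ℤ,
    ¬ IsSquare D → 4 * |(D : ℝ)| ≤ Real.log P ^ W → |Sd D P Q| ≤ 1 / Real.log P ^ V := by
  obtain ⟨y0, hsw⟩ := Pool.Agent.H442R2.EHI.Four8.sw (V + W + 1) W
  obtain ⟨x2, h2⟩ := Pool.Agent.H442R2.EHI.Four8.ev_L 3
  refine ⟨max (max y0 x2) 1, fun P hP Q hPQ hQ2 D hD hDP => ?_⟩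
  have hy0 : y0 ≤ P := le_trans (le_trans (le_max_left _ _) (le_max_left _ _)) hP
  have hx2 : x2 ≤ P := le_trans (le_trans (le_max_right _ _) (le_max_left _ _)) hP
  have hP1 : 1 ≤ P := le_trans (le_max_right _ _) hP
  have hL := h2 P hx2
  have hL0 : 0 < Real.log P := by linarith
  have hD0 : D ≠ 0 := by rintro rfl; exact hD ⟨0, rfl⟩
  set q := 4 * D.natAbs with hq
  have hq1 : 1 ≤ q := by have := Int.natAbs_pos.2 hD0; omega
  have hqD : (q : ℝ) = 4 * |(D : ℝ)| := by
    rw [hq]; push_cast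
    rw [Nat.cast_natAbs]
    push_cast
    rfl
  set B : ℝ := q / Real.log P ^ (V + W + 1) with hB
  have hB0 : 0 ≤ B := by positivity
  have hT : ∀ n : ℕ, P ≤ n → |T D n| ≤ B * n := by
    intro n hn
    have hnR : (P : ℝ) ≤ n := by exact_mod_cast hn
    have hPR : (0 : ℝ) < P := by exact_mod_cast hP1
    have hlog : Real.log P ≤ Real.log n := Real.log_le_log hPR hnR
    have hlog0 : 0 < Real.log n := lt_of_lt_of_le hL0 hlog
    have h3 := T_bound D hD n (V + W + 1) (fun c hc hcop => hsw n (hy0.trans hn) q hq1 (by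
      rw [hqD]
      refine hDP.trans ?_
      gcongr) c hc hcop) (by positivity)
    refine h3.trans ?_
    rw [← hq, hB, div_mul_eq_mul_div, mul_div_assoc']
    gcongr
  rw [Sd_eq D P Q hPQ]
  have e1 : |T D Q / (Q + 1)| ≤ B := by
    rw [abs_div, abs_of_pos (by positivity : (0 : ℝ) < Q + 1), div_le_iff₀ (by positivity)]
    refine (hT Q hPQ).trans ?_
    nlinarith
  have e2 : |T D P / (P + 1)| ≤ B := by
    rw [abs_div, abs_of_pos (by positivity : (0 : ℝ) < P + 1), div_le_iff₀ (by positivity)]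
    refine (hT P le_rfl).trans ?_
    nlinarith
  have e3 : |∑ n ∈ Ioc P Q, T D n * (1 / (n : ℝ) - 1 / (n + 1))| ≤ B := by
    have hPR : (0 : ℝ) < P := by exact_mod_cast hP1
    calc |∑ n ∈ Ioc P Q, T D n * (1 / (n : ℝ) - 1 / (n + 1))|
        ≤ ∑ n ∈ Ioc P Q, |T D n * (1 / (n : ℝ) - 1 / (n + 1))| := abs_sum_le_sum_abs _ _
      _ ≤ ∑ n ∈ Ioc P Q, B / P := by
          apply sum_le_sum
          intro n hn
          rw [mem_Ioc] at hn
          have hn0 : (0 : ℝ) < n := by exact_mod_cast (by omega : 0 < n)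
          have h4 : (1 / (n : ℝ) - 1 / (n + 1)) = 1 / (n * (n + 1)) := by
            field_simp
            ring
          rw [h4, abs_mul, abs_of_pos (by positivity : (0 : ℝ) < 1 / (n * (n + 1)))]
          have hPn : (P : ℝ) ≤ n := by exact_mod_cast hn.1.le
          calc |T D n| * (1 / ((n : ℝ) * (n + 1))) ≤ (B * n) * (1 / ((n : ℝ) * (n + 1))) := by
                gcongr
                exact hT n hn.1.le
            _ = B / (n + 1) := by field_simp
            _ ≤ B / P := by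
                gcongr
                linarith
      _ = ((Q - P : ℕ) : ℝ) * (B / P) := by rw [sum_const, Nat.card_Ioc, nsmul_eq_mul]
      _ ≤ (P : ℝ) * (B / P) := by
          gcongr
          omega
      _ = B := by field_simp
  have h5 : |T D Q / (Q + 1) - T D P / (P + 1) +
      ∑ n ∈ Ioc P Q, T D n * (1 / (n : ℝ) - 1 / (n + 1))| ≤ 3 * B := by
    calc _ ≤ |T D Q / (Q + 1) - T D P / (P + 1)| +
          |∑ n ∈ Ioc P Q, T D n * (1 / (n : ℝ) - 1 / (n + 1))| := abs_add_le _ _
      _ ≤ (|T D Q / (Q + 1)| + |T D P / (P + 1)|) + B := add_le_add (abs_sub _ _) e3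
      _ ≤ _ := by linarith
  refine h5.trans ?_
  rw [hB, le_div_iff₀ (by positivity)]
  have h6 : (q : ℝ) ≤ Real.log P ^ W := by rw [hqD]; exact hDP
  calc 3 * (q / Real.log P ^ (V + W + 1)) * Real.log P ^ V
      ≤ 3 * (Real.log P ^ W / Real.log P ^ (V + W + 1)) * Real.log P ^ V := by gcongr
    _ = 3 / Real.log P := by
        rw [pow_succ, pow_add]
        field_simp
    _ ≤ 1 := by rw [div_le_one hL0]; exact hL

end Pool.Agent.H364R2.EC
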